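import Pool.Agent.N783.CF.Tower

/-!
# A lower bound for the number of extensions of degree `n` of every number field

Let `K` be any number field, `n ≥ 2`, and `p` the least prime factor of `n`. The number of the extensions
`L` of degree `n` of `K` inside an algebraic closure of `K` with absolute discriminant at most `X` is at
least `c X ^ (1 / 2 + 1 / p)` for large `X`, with `c > 0` depending on `K` and `n`; in particular it is
always at least `c X ^ (1 / 2 + 1 / n)`.

(The absolute value of the discriminant of `L` is `|disc K| ^ n` times the norm of the relative
discriminant, so the same holds for the count by the norm of the relative discriminant.)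

Known before: for `n` divisible by `2`, `3` or `5` even the order of magnitude `X` is known as a lower
bound over every `K` (Datskovsky-Wright, Bhargava-Shankar-Wang, over a fixed intermediate field). Over
`K = ℚ` the bound `X ^ (1 / 2 + 1 / (n - 1))` is a theorem of Bhargava, Shankar and Wang (squarefree values
of polynomial discriminants II; I for `X ^ (1 / 2 + 1 / n)` and monogenic fields). Otherwise the best lower bound seems to be `X ^ (1 / 2 + 1 / p ^ 2)` (Ellenberg and
Venkatesh, over a fixed intermediate field). So the result is new for `n` prime to `30` if
`K ≠ ℚ` or `n` is not a prime number.

The proof. Since there is an extension of `K` of degree `n / p`, it is enough to treat `n = p`. For `p = 2`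
the fields can be counted with the help of Kummer theory. Let `p` be odd. By project PF (2-Selmer groups
of hyperelliptic Jacobians over number fields) a positive proportion of all monic polynomials `f` of degree
`p` over `𝓞 K` without term of degree `p - 1`, ordered by the height, is irreducible with a discriminant
which is not divisible by the square of a prime ideal: a polynomial `f` of the family considered there with
`𝔭 ^ 2 ∣ disc f`, `𝔭` large, gives an `𝓞 K`-lattice in `K[x]/(f)` which is unimodular for the form
`tr (x y / f'(θ))` and distinguished at the primes of a large set `S`, and these are rare by reduction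
theory over `𝓞 K`. For all but few of these `f` the discriminant is large at all infinite places. Then
`𝓞 L = 𝓞 K [θ]`, and `L` determines `θ` up to boundedly many multiples: the elements of `𝓞 L` of trace
zero which are as small as `θ` are multiples of `θ`. (This works for every odd `n ≥ 3` and gives
`c X ^ (1 / 2 + 1 / n)` fields `L` of degree `n` with `𝓞 L = 𝓞 K [θ]` and Galois group `S_n`, see
`MP_af4c59_nt.SymmetricGroupOddDegree`.)

Project CF: helper783 with parts by helpers 27, 78, 93, 130, 169, 195, 227, 300, 327, 492, 513, 526, 531,
570, 602, 654, 692, 693, 793, 914; project PF: see `MP_1d384c_nt.JacobiansNumberFields`; finiteness of the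
number of fields: library (W301); quadratic extensions: library (project ML of helper444).
-/

set_option autoImplicit false
set_option linter.all false

namespace Pool.Agent.Results.MP_bf81c2_nt.LeastPrimeFactorLowerBound

/-- The extensions of degree `n` of `K` inside the algebraic closure of `K` whose absolute discriminant
has absolute value at most `X`. -/
def Fields (K : Type) [Field K] [NumberField K] (n : ℕ) (X : ℝ) :
    Set (IntermediateField K (AlgebraicClosure K)) :=
  {L | Module.finrank K L = n ∧
    ∃ h : NumberField L, ((|@NumberField.discr L _ h| : ℤ) : ℝ) ≤ X}

/-- For every number field `K` and every `n ≥ 2` with least prime factor `p` the number of extensions of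
degree `n` of `K` with absolute discriminant at most `X` is finite and at least
`c X ^ (1 / 2 + 1 / p)`. -/
theorem result : ∀ (K : Type) [Field K] [NumberField K] (n p : ℕ), 2 ≤ n → p = n.minFac →
    ∃ c : ℝ, 0 < c ∧ ∃ X₀ : ℝ, ∀ X : ℝ, X₀ ≤ X → (Fields K n X).Finite ∧
      c * X ^ ((1 : ℝ) / 2 + 1 / (p : ℝ)) ≤ ((Fields K n X).ncard : ℝ) := by
  intro K _ _ n p hn hp
  subst hp
  exact Pool.Agent.N783.CF.lowF K n hn

end Pool.Agent.Results.MP_bf81c2_nt.LeastPrimeFactorLowerBound
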